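import Mathlib

/-!
# Fractional disjoint transversals in 4-regular 4-uniform hypergraphs (MP_b2082d_co)

Every `4`-regular `4`-uniform hypergraph `H` has `FDT(H) ≥ 455/212 > 2.146`.

Proof idea.  Label the vertices independently and uniformly by `1, …, N` and let `T` consist of the
vertices whose label is maximal in some edge.  By the Harris-Kleitman (FKG) inequality a given
vertex avoids `T` with probability at least `∫₀¹ (1 - x³)⁴ dx - 1/N = 243/455 - 1/N`.
-/

open Finset

namespace Pool.Agent.Results.MP_b2082d_co.RandomOrder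

/-- Every edge of the hypergraph `E` (a finite indexed family of edges, so repeated edges are
allowed) has exactly `k` vertices. -/
def IsUniform {V ι : Type*} (E : ι → Finset V) (k : ℕ) : Prop :=
  ∀ i, (E i).card = k

/-- Every vertex lies in exactly `k` edges, counted with multiplicity. -/
def IsRegular {V ι : Type*} [DecidableEq V] [Fintype ι] (E : ι → Finset V) (k : ℕ) : Prop :=
  ∀ v, (univ.filter fun i => v ∈ E i).card = k

/-- `T` meets every edge. -/
def IsTransversal {V ι : Type*} (E : ι → Finset V) (T : Finset V) : Prop :=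
  ∀ i, ∃ v ∈ T, v ∈ E i

/-- The largest number of members of the family `F` that contain a common vertex. -/
def maxMult {V : Type*} [Fintype V] [DecidableEq V] {N : ℕ} (F : Fin N → Finset V) : ℕ :=
  univ.sup fun v : V => (univ.filter fun j => v ∈ F j).card

/-- The ratios `|F| / m(F)` over all nonempty finite families `F` of transversals of `E`. -/
def ratios {V ι : Type*} [Fintype V] [DecidableEq V] (E : ι → Finset V) : Set ℝ :=
  {r : ℝ | ∃ (N : ℕ) (F : Fin N → Finset V), 0 < N ∧ (∀ j, IsTransversal E (F j)) ∧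
    r = (N : ℝ) / (maxMult F : ℝ)}

/-- The fractional disjoint transversal number. -/
noncomputable def FDT {V ι : Type*} [Fintype V] [DecidableEq V] (E : ι → Finset V) : ℝ :=
  sSup (ratios E)

section Aux

/-- Harris-Kleitman inequality for finite products of nonnegative monotone functions. -/
theorem harris_prod {α β : Type*} [DistribLattice α] [Fintype α] [Nonempty α]
    (s : Finset β) (f : β → α → ℝ) (h0 : ∀ i a, 0 ≤ f i a) (hm : ∀ i, Monotone (f i)) :
    ∏ i ∈ s, ((∑ a, f i a) / (Fintype.card α : ℝ)) ≤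
      (∑ a, ∏ i ∈ s, f i a) / (Fintype.card α : ℝ) := by
  classical
  have hc : (0 : ℝ) < Fintype.card α := by exact_mod_cast Fintype.card_pos
  induction s using Finset.induction_on with
  | empty => simp [hc.ne']
  | insert i s hi ih =>
    rw [Finset.prod_insert hi]
    have h1 : ∀ a, ∏ j ∈ insert i s, f j a = f i a * ∏ j ∈ s, f j a := fun a =>
      Finset.prod_insert hi
    simp_rw [h1]
    have hg0 : (0 : α → ℝ) ≤ fun a => ∏ j ∈ s, f j a := fun a =>
      Finset.prod_nonneg fun j _ => h0 j a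
    have hgm : Monotone fun a => ∏ j ∈ s, f j a := fun a b hab =>
      Finset.prod_le_prod (fun j _ => h0 j a) fun j _ => hm j hab
    have key := fkg (μ := fun _ : α => (1 : ℝ)) (f := f i) (g := fun a => ∏ j ∈ s, f j a)
      (fun _ => zero_le_one) (fun a => h0 i a) hg0 (hm i) hgm (fun a b => le_refl _)
    simp only [one_mul, Finset.sum_const, Finset.card_univ, nsmul_eq_mul, mul_one] at key
    have h2 : 0 ≤ (∑ a, f i a) / (Fintype.card α : ℝ) :=
      div_nonneg (Finset.sum_nonneg fun a _ => h0 i a) hc.le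
    refine (mul_le_mul_of_nonneg_left ih h2).trans ?_
    rw [div_mul_div_comm, div_le_div_iff₀ (mul_pos hc hc) hc]
    nlinarith [mul_le_mul_of_nonneg_right key hc.le]

theorem integral_g : (∫ x in (0 : ℝ)..1, (1 - x ^ 3) ^ 4) = 243 / 455 := by
  have h : ∀ x : ℝ, (1 - x ^ 3) ^ 4 = 1 - 4 * x ^ 3 + 6 * x ^ 6 - 4 * x ^ 9 + x ^ 12 := by
    intro x; ring
  simp_rw [h]
  rw [intervalIntegral.integral_add, intervalIntegral.integral_sub,
    intervalIntegral.integral_add, intervalIntegral.integral_sub]
  · simp only [intervalIntegral.integral_const_mul, integral_pow, intervalIntegral.integral_const]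
    norm_num
  all_goals exact Continuous.intervalIntegrable (by fun_prop) _ _

/-- The right Riemann sum of `(1 - x³)⁴`. -/
theorem riemann (N : ℕ) (hN : 0 < N) :
    (243 / 455 : ℝ) - 1 / N ≤ (∑ k : Fin N, (1 - (((k : ℕ) + 1 : ℝ) / N) ^ 3) ^ 4) / N := by
  have hN' : (0 : ℝ) < N := by exact_mod_cast hN
  have hanti : AntitoneOn (fun x : ℝ => (1 - (x / N) ^ 3) ^ 4) (Set.Icc 0 (0 + (N : ℕ))) := by
    intro x hx y hy hxy
    simp only [zero_add, Set.mem_Icc] at hx hy
    have hy1 : y / N ≤ 1 := (div_le_one hN').2 hy.2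
    have hy0 : 0 ≤ y / N := div_nonneg hy.1 hN'.le
    have hx0 : 0 ≤ x / N := div_nonneg hx.1 hN'.le
    have hxy' : x / N ≤ y / N := div_le_div_of_nonneg_right hxy hN'.le
    have h1 : 0 ≤ 1 - (y / N) ^ 3 := by
      have := pow_le_one₀ hy0 hy1 (n := 3)
      linarith
    have h2 : 1 - (y / N) ^ 3 ≤ 1 - (x / N) ^ 3 := by
      have := pow_le_pow_left₀ hx0 hxy' 3
      linarith
    exact pow_le_pow_left₀ h1 h2 4
  have h1 := hanti.integral_le_sum
  have h2 : (∫ x : ℝ in (0 : ℝ)..(0 + ((N : ℕ) : ℝ)), (1 - (x / (N : ℝ)) ^ 3) ^ 4) =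
      (N : ℝ) * (243 / 455) := by
    rw [zero_add, intervalIntegral.integral_comp_div (fun x : ℝ => (1 - x ^ 3) ^ 4) hN'.ne']
    rw [zero_div, div_self hN'.ne', integral_g, smul_eq_mul]
  rw [h2] at h1
  have h3 : ∑ i ∈ Finset.range N, (1 - ((0 + (i : ℝ)) / N) ^ 3) ^ 4 =
      (∑ k : Fin N, (1 - (((k : ℕ) + 1 : ℝ) / N) ^ 3) ^ 4) + 1 := by
    have e1 : ∑ i ∈ Finset.range (N + 1), (1 - ((i : ℝ) / N) ^ 3) ^ 4 =
        ∑ i ∈ Finset.range N, (1 - ((i : ℝ) / N) ^ 3) ^ 4 := by
      rw [Finset.sum_range_succ, div_self hN'.ne']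
      norm_num
    have e2 := Finset.sum_range_succ' (fun i : ℕ => (1 - ((i : ℝ) / N) ^ 3) ^ 4) N
    simp only [zero_add]
    rw [← e1, e2, ← Fin.sum_univ_eq_sum_range
      (fun i : ℕ => (1 - (((i + 1 : ℕ) : ℝ) / N) ^ 3) ^ 4) N]
    simp
  rw [h3] at h1
  rw [le_div_iff₀ hN', sub_mul, one_div, inv_mul_cancel₀ hN'.ne']
  linarith

end Aux

section Main

variable {V ι : Type*} [Fintype V] [DecidableEq V] [Fintype ι] {E : ι → Finset V}

open Classical in
/-- The vertices whose label is maximal in some edge. -/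
noncomputable def tr {N : ℕ} (E : ι → Finset V) (l : V → Fin N) : Finset V :=
  univ.filter fun v => ∃ i, v ∈ E i ∧ ∀ u ∈ E i, l u ≤ l v

theorem tr_isTransversal {N : ℕ} (hu : IsUniform E 4) (l : V → Fin N) :
    IsTransversal E (tr E l) := by
  intro i
  have hne : (E i).Nonempty := by rw [← Finset.card_pos, hu i]; norm_num
  obtain ⟨v, hv, hmax⟩ := Finset.exists_max_image (E i) l hne
  exact ⟨v, by simp only [tr, mem_filter, mem_univ, true_and]; exact ⟨i, hv, hmax⟩, hv⟩

/-- Indicator that some vertex `u ≠ v` of the edge `i` has a label above `k`. -/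
noncomputable def ind {N : ℕ} (E : ι → Finset V) (v : V) (k : Fin N) (i : ι)
    (m : {u : V // u ≠ v} → Fin N) : ℝ :=
  open Classical in if ∃ u : {u : V // u ≠ v}, u.1 ∈ E i ∧ k < m u then 1 else 0

theorem ind_nonneg {N : ℕ} (v : V) (k : Fin N) (i : ι) (m : {u : V // u ≠ v} → Fin N) :
    0 ≤ ind E v k i m := by
  unfold ind; split_ifs <;> norm_num

theorem ind_mono {N : ℕ} (v : V) (k : Fin N) (i : ι) : Monotone (ind E v k i) := by
  intro a b hab
  unfold ind
  split_ifs with h1 h2 h2
  · exact le_rfl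
  · obtain ⟨u, hu, hk⟩ := h1
    exact absurd ⟨u, hu, lt_of_lt_of_le hk (hab u)⟩ h2
  · norm_num
  · exact le_rfl

theorem card_off (hu : IsUniform E 4) {v : V} {i : ι} (hv : v ∈ E i) :
    (univ.filter fun u : {u : V // u ≠ v} => u.1 ∈ E i).card = 3 := by
  have h : (univ.filter fun u : {u : V // u ≠ v} => u.1 ∈ E i).map
      (Function.Embedding.subtype _) = (E i).erase v := by
    ext x
    simp only [mem_map, mem_filter, mem_univ, true_and, Function.Embedding.coe_subtype,
      Subtype.exists, exists_and_left, exists_prop, mem_erase]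
    constructor
    · rintro ⟨a, ha, hav, rfl⟩; exact ⟨hav, ha⟩
    · rintro ⟨h1, h2⟩; exact ⟨x, h2, h1, rfl⟩
  rw [← Finset.card_map (Function.Embedding.subtype _), h, Finset.card_erase_of_mem hv, hu i]

theorem mean_ind {N : ℕ} (hN : 0 < N) (hu : IsUniform E 4) {v : V} {i : ι} (hv : v ∈ E i)
    (k : Fin N) :
    (∑ m, ind E v k i m) / (Fintype.card ({u : V // u ≠ v} → Fin N) : ℝ) =
      1 - (((k : ℕ) + 1 : ℝ) / N) ^ 3 := by
  classical
  have hN' : (0 : ℝ) < N := by exact_mod_cast hN
  set W := {u : V // u ≠ v}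
  set A : Finset W := univ.filter fun u : W => u.1 ∈ E i with hA
  have hcard : A.card = 3 := card_off hu hv
  have hOm : (Fintype.card (W → Fin N) : ℝ) = ∏ _u : W, (N : ℝ) := by
    rw [Fintype.card_fun, Fintype.card_fin]; simp
  have hpos : (0 : ℝ) < Fintype.card (W → Fin N) := by
    rw [hOm]; exact Finset.prod_pos fun _ _ => hN'
  have h1 : ∀ m : W → Fin N, ind E v k i m =
      1 - (if m ∈ Fintype.piFinset (fun u : W => if u ∈ A then Finset.Iic k else univ)
        then (1 : ℝ) else 0) := by
    intro m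
    unfold ind
    by_cases h : ∃ u : W, u.1 ∈ E i ∧ k < m u
    · rw [if_pos h, if_neg]
      · norm_num
      · intro hm
        obtain ⟨u, hu1, hu2⟩ := h
        have := (Fintype.mem_piFinset.1 hm) u
        have huA : u ∈ A := by rw [hA]; simp [hu1]
        rw [if_pos huA, Finset.mem_Iic] at this
        exact absurd hu2 (not_lt.2 this)
    · rw [if_neg h, if_pos]
      · norm_num
      · rw [Fintype.mem_piFinset]
        intro u
        by_cases huA : u ∈ A
        · rw [if_pos huA, Finset.mem_Iic]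
          by_contra hk
          exact h ⟨u, by simpa [hA] using huA, not_le.1 hk⟩
        · rw [if_neg huA]; exact mem_univ _
  simp_rw [h1]
  rw [Finset.sum_sub_distrib, Finset.sum_const, Finset.card_univ, nsmul_eq_mul, mul_one,
    sub_div, div_self hpos.ne', Finset.sum_ite_mem, Finset.univ_inter, Finset.sum_const,
    nsmul_eq_mul, mul_one, Fintype.card_piFinset, hOm]
  congr 1
  push_cast
  rw [← Finset.prod_div_distrib]
  have h2 : ∀ u : W, (((if u ∈ A then Finset.Iic k else univ : Finset (Fin N)).card : ℕ) : ℝ) / N =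
      if u ∈ A then (((k : ℕ) + 1 : ℝ) / N) else 1 := by
    intro u
    split_ifs
    · rw [Fin.card_Iic]; push_cast; rfl
    · rw [Finset.card_univ, Fintype.card_fin, div_self hN'.ne']
  simp_rw [h2]
  rw [Finset.prod_ite_mem, Finset.univ_inter, Finset.prod_const, hcard]

open Classical in
theorem indicator_eq {N : ℕ} (v : V) (l : V → Fin N) :
    (if v ∉ tr E l then (1 : ℝ) else 0) =
      ∏ i ∈ univ.filter (fun i => v ∈ E i), ind E v (l v) i (fun u => l u) := by
  unfold ind
  rw [Finset.prod_ite_zero]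
  simp only [Finset.prod_const_one]
  congr 1
  simp only [tr, mem_filter, mem_univ, true_and, not_exists, not_and, not_forall, not_le,
    eq_iff_iff]
  refine forall_congr' fun i => forall_congr' fun hi => ?_
  constructor
  · rintro ⟨u, hu, hlt⟩
    exact ⟨⟨u, fun h => by subst h; exact lt_irrefl _ hlt⟩, hu, hlt⟩
  · rintro ⟨u, hu, hlt⟩
    exact ⟨u.1, hu, hlt⟩

open Classical in
theorem count_avoid (hu : IsUniform E 4) (hr : IsRegular E 4) {N : ℕ} (hN : 0 < N) (v : V) :
    ((243 / 455 : ℝ) - 1 / N) * (Fintype.card (V → Fin N) : ℝ) ≤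
      ((univ.filter fun l : V → Fin N => v ∉ tr E l).card : ℝ) := by
  have hN' : (0 : ℝ) < N := by exact_mod_cast hN
  haveI : Nonempty (Fin N) := ⟨⟨0, hN⟩⟩
  have hO : (0 : ℝ) < Fintype.card ({u : V // u ≠ v} → Fin N) := by
    exact_mod_cast Fintype.card_pos
  have hcardeq : (Fintype.card (V → Fin N) : ℝ) =
      N * (Fintype.card ({u : V // u ≠ v} → Fin N) : ℝ) := by
    rw [Fintype.card_congr (Equiv.funSplitAt v (Fin N)), Fintype.card_prod, Fintype.card_fin]
    push_cast; rfl
  have h1 : ((univ.filter fun l : V → Fin N => v ∉ tr E l).card : ℝ) =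
      ∑ k : Fin N, ∑ m : {u : V // u ≠ v} → Fin N,
        ∏ i ∈ univ.filter (fun i => v ∈ E i), ind E v k i m := by
    rw [Finset.card_filter]
    push_cast
    simp_rw [indicator_eq]
    rw [← Fintype.sum_prod_type']
    exact Fintype.sum_equiv (Equiv.funSplitAt v (Fin N)) _ _ fun l => rfl
  have h2 : ∀ k : Fin N, (Fintype.card ({u : V // u ≠ v} → Fin N) : ℝ) *
      (1 - (((k : ℕ) + 1 : ℝ) / N) ^ 3) ^ 4 ≤
      ∑ m : {u : V // u ≠ v} → Fin N,
        ∏ i ∈ univ.filter (fun i => v ∈ E i), ind E v k i m := by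
    intro k
    have h3 := harris_prod (univ.filter (fun i => v ∈ E i)) (fun i => ind E v k i)
      (fun i m => ind_nonneg v k i m) (fun i => ind_mono v k i)
    rw [Finset.prod_congr rfl (fun i hi => mean_ind hN hu (by simpa using hi) k),
      Finset.prod_const, hr v, le_div_iff₀ hO] at h3
    linarith
  rw [h1, hcardeq]
  refine le_trans ?_ (Finset.sum_le_sum fun k _ => h2 k)
  rw [← Finset.mul_sum]
  have h4 := riemann N hN
  rw [le_div_iff₀ hN'] at h4
  nlinarith [mul_le_mul_of_nonneg_left h4 hO.le]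

theorem card_le_four_mul (hu : IsUniform E 4) {N : ℕ} (F : Fin N → Finset V)
    (hF : ∀ j, IsTransversal E (F j)) (i : ι) : N ≤ 4 * maxMult F := by
  classical
  have h1 : N = ∑ j : Fin N, 1 := by simp
  have h2 : ∀ j : Fin N, 1 ≤ ∑ v ∈ E i, if v ∈ F j then 1 else 0 := by
    intro j
    obtain ⟨v, hv, hvi⟩ := hF j i
    have h3 : (if v ∈ F j then 1 else 0) ≤ ∑ v ∈ E i, if v ∈ F j then 1 else 0 :=
      Finset.single_le_sum (f := fun v => if v ∈ F j then 1 else 0)
        (fun _ _ => Nat.zero_le _) hvi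
    rw [if_pos hv] at h3
    exact h3
  calc N = ∑ j : Fin N, 1 := h1
    _ ≤ ∑ j : Fin N, ∑ v ∈ E i, if v ∈ F j then 1 else 0 := Finset.sum_le_sum fun j _ => h2 j
    _ = ∑ v ∈ E i, ∑ j : Fin N, if v ∈ F j then 1 else 0 := Finset.sum_comm
    _ = ∑ v ∈ E i, (univ.filter fun j => v ∈ F j).card := by
        refine Finset.sum_congr rfl fun v _ => ?_
        rw [Finset.card_filter]
    _ ≤ ∑ v ∈ E i, maxMult F := Finset.sum_le_sum fun v _ =>
        Finset.le_sup (f := fun v : V => (univ.filter fun j => v ∈ F j).card) (mem_univ v)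
    _ = 4 * maxMult F := by rw [Finset.sum_const, hu i, smul_eq_mul]

end Main

/-- Every `4`-regular `4`-uniform hypergraph `E` on a nonempty finite vertex set has
`FDT(E) ≥ 455/212`; the set of ratios whose supremum is `FDT(E)` is bounded. -/
theorem result {V ι : Type*} [Fintype V] [DecidableEq V] [Nonempty V] [Fintype ι]
    (E : ι → Finset V) (hu : IsUniform E 4) (hr : IsRegular E 4) :
    BddAbove (ratios E) ∧ (455 / 212 : ℝ) ≤ FDT E := by
  classical
  obtain ⟨v0⟩ := ‹Nonempty V›
  have hi : (univ.filter fun i => v0 ∈ E i).Nonempty := by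
    rw [← Finset.card_pos, hr v0]; norm_num
  obtain ⟨i0, -⟩ := hi
  have hb : BddAbove (ratios E) := by
    refine ⟨4, ?_⟩
    rintro r ⟨N, F, hN, hF, rfl⟩
    have h1 := card_le_four_mul hu F hF i0
    have h2 : 0 < maxMult F := by omega
    rw [div_le_iff₀ (by exact_mod_cast h2)]
    exact_mod_cast h1
  refine ⟨hb, ?_⟩
  have key : ∀ N : ℕ, 0 < N → 1 / ((212 / 455 : ℝ) + 1 / N) ≤ FDT E := by
    intro N hN
    have hN' : (0 : ℝ) < N := by exact_mod_cast hN
    haveI : Nonempty (Fin N) := ⟨⟨0, hN⟩⟩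
    set M := Fintype.card (V → Fin N) with hM
    have hMpos : 0 < M := Fintype.card_pos
    set F : Fin M → Finset V := fun j => tr E ((Fintype.equivFin (V → Fin N)).symm j) with hFdef
    have hF : ∀ j, IsTransversal E (F j) := fun j => tr_isTransversal hu _
    refine le_trans ?_ (le_csSup hb ⟨M, F, hMpos, hF, rfl⟩)
    have h4 := card_le_four_mul hu F hF i0
    have hm0 : 0 < maxMult F := by omega
    have hm0' : (0 : ℝ) < maxMult F := by exact_mod_cast hm0
    have hcount : ∀ v : V, ((univ.filter fun j => v ∈ F j).card : ℝ) ≤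
        ((212 / 455 : ℝ) + 1 / N) * M := by
      intro v
      have h5 : (univ.filter fun j => v ∈ F j).card =
          (univ.filter fun l : V → Fin N => v ∈ tr E l).card := by
        refine Finset.card_bij (fun j _ => (Fintype.equivFin (V → Fin N)).symm j) ?_ ?_ ?_
        · intro j hj
          simpa [hFdef] using hj
        · intro a _ b _ hab
          exact (Fintype.equivFin (V → Fin N)).symm.injective hab
        · intro l hl
          refine ⟨Fintype.equivFin (V → Fin N) l, ?_, by simp⟩
          simpa [hFdef] using hl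
      have h6 := count_avoid hu hr hN v
      have h7 : (univ.filter fun l : V → Fin N => v ∈ tr E l).card +
          (univ.filter fun l : V → Fin N => v ∉ tr E l).card = M := by
        rw [Finset.card_filter_add_card_filter_not, Finset.card_univ]
      have h8 : ((univ.filter fun l : V → Fin N => v ∈ tr E l).card : ℝ) +
          ((univ.filter fun l : V → Fin N => v ∉ tr E l).card : ℝ) = M := by
        exact_mod_cast h7
      rw [h5]
      have h9 : ((243 / 455 : ℝ) - 1 / N) * M = M - ((212 / 455 : ℝ) + 1 / N) * M := by ring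
      rw [← hM, h9] at h6
      linarith
    obtain ⟨v, -, hv⟩ := Finset.exists_mem_eq_sup (univ : Finset V) ⟨v0, mem_univ _⟩
      (fun v : V => (univ.filter fun j => v ∈ F j).card)
    have h10 : (maxMult F : ℝ) ≤ ((212 / 455 : ℝ) + 1 / N) * M := by
      have : maxMult F = (univ.filter fun j => v ∈ F j).card := hv
      rw [this]
      exact hcount v
    have hc : (0 : ℝ) < (212 / 455 : ℝ) + 1 / N := by positivity
    rw [div_le_div_iff₀ hc hm0']
    linarith
  have hpos : (0 : ℝ) < FDT E := lt_of_lt_of_le (by positivity) (key 1 one_pos)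
  by_contra hlt
  push_neg at hlt
  have hgap : 0 < 1 - (212 / 455 : ℝ) * FDT E := by
    have := (mul_lt_mul_of_pos_left hlt (by norm_num : (0 : ℝ) < 212 / 455))
    norm_num at this
    linarith
  obtain ⟨N, hN⟩ := exists_nat_gt (FDT E / (1 - (212 / 455 : ℝ) * FDT E))
  have hNpos : (0 : ℝ) < N := lt_trans (div_pos hpos hgap) hN
  have hN0 : 0 < N := by exact_mod_cast hNpos
  have h1 := key N hN0
  rw [div_le_iff₀ (by positivity)] at h1
  rw [div_lt_iff₀ hgap] at hN
  have h2 : FDT E * (1 / (N : ℝ)) < 1 - (212 / 455 : ℝ) * FDT E := by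
    rw [mul_one_div, div_lt_iff₀ hNpos]
    linarith
  linarith

end Pool.Agent.Results.MP_b2082d_co.RandomOrder
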